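import Mathlib
import Pool.Agent.W439.WideFD

set_option autoImplicit false

namespace Pool.Agent.Results.MP_ca5fc5_al.FiniteDimensionalAlgebras

open Pool.Agent.Helper232.RZ (PP)

/-- indecomposable: nonzero, and in every direct decomposition one summand is zero -/
def Indecomposable (R : Type) [Ring R] (N : Type) [AddCommGroup N] [Module R N] : Prop :=
  Nontrivial N ∧ ∀ A B : Submodule R N, IsCompl A B → A = ⊥ ∨ B = ⊥

/-- superdecomposable: nonzero, without indecomposable direct summand -/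
def Superdecomposable (R : Type) [Ring R] (N : Type) [AddCommGroup N] [Module R N] : Prop :=
  Nontrivial N ∧ ∀ A B : Submodule R N, IsCompl A B → ¬ Indecomposable R A

/-- pure embedding: injective, and a pp condition (in `n` variables) which holds in `B` at a tuple
of elements of `A` holds already in `A` -/
def PureEmbedding {R : Type} [Ring R] {A B : Type} [AddCommGroup A] [Module R A] [AddCommGroup B]
    [Module R B] (i : A →ₗ[R] B) : Prop :=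
  Function.Injective i ∧
    ∀ (n : ℕ) (φ : PP R n) (x : Fin n → A), φ.H (fun j => i (x j)) → φ.H x

/-- pure-injective: injective with respect to pure embeddings -/
def PureInjective (R : Type) [Ring R] (N : Type) [AddCommGroup N] [Module R N] : Prop :=
  ∀ (A B : Type) [AddCommGroup A] [Module R A] [AddCommGroup B] [Module R B] (i : A →ₗ[R] B),
    PureEmbedding i → ∀ f : A →ₗ[R] N, ∃ g : B →ₗ[R] N, ∀ a, g (i a) = f a

variable {R : Type} [Ring R]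

/-- `φ ≤ ψ` in the lattice of pp conditions in one variable -/
def Le (φ ψ : PP R 1) : Prop :=
  ∀ (M : Type) [AddCommGroup M] [Module R M] (x : M), φ.h x → ψ.h x

/-- `φ < ψ` -/
def Lt (φ ψ : PP R 1) : Prop := Le φ ψ ∧ ¬ Le ψ φ

/-- `σ ≤ φ + ψ` -/
def LeJoin (σ φ ψ : PP R 1) : Prop :=
  ∀ (M : Type) [AddCommGroup M] [Module R M] (x : M), σ.h x →
    ∃ y z : M, x = y + z ∧ φ.h y ∧ ψ.h z

/-- `φ ∧ ψ ≤ σ` -/
def MeetLe (φ ψ σ : PP R 1) : Prop :=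
  ∀ (M : Type) [AddCommGroup M] [Module R M] (x : M), φ.h x → ψ.h x → σ.h x

/-- `P` is a wide subset of the lattice of pp conditions in one variable -/
def Wide (P : Set (PP R 1)) : Prop :=
  (∃ φ ∈ P, ∃ ψ ∈ P, Lt ψ φ) ∧
  ∀ φ ∈ P, ∀ ψ ∈ P, Lt ψ φ → ∃ θ₁ ∈ P, ∃ θ₂ ∈ P,
    ¬ Le θ₁ θ₂ ∧ ¬ Le θ₂ θ₁ ∧
    Lt ψ θ₁ ∧ Lt θ₁ φ ∧ Lt ψ θ₂ ∧ Lt θ₂ φ ∧
    ∃ θ₁₁ ∈ P, ∃ θ₁₂ ∈ P, ∃ θ₂₁ ∈ P, ∃ θ₂₂ ∈ P,
      (LeJoin θ₁₁ θ₁ θ₂ ∧ Lt θ₁ θ₁₁ ∧ Lt θ₁₂ θ₁ ∧ MeetLe θ₁ θ₂ θ₁₂) ∧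
      (LeJoin θ₂₁ θ₁ θ₂ ∧ Lt θ₂ θ₂₁ ∧ Lt θ₂₂ θ₂ ∧ MeetLe θ₁ θ₂ θ₂₂)

/-- Let `R` be a finite-dimensional algebra over an arbitrary field (of any cardinality). If the
lattice of pp conditions in one variable contains a wide subset (its width is undefined), then there
is a superdecomposable pure-injective `R`-module. -/
theorem result (k R : Type) [Field k] [Ring R] [Algebra k R] [Module.Finite k R]
    (P : Set (PP R 1)) (hwide : Wide P) :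
    ∃ (N : Type) (_ : AddCommGroup N) (_ : Module R N),
      PureInjective R N ∧ Superdecomposable R N := by
  obtain ⟨H, i1, i2, hAC, hnt, hsd⟩ := Pool.Agent.W439.wide_fd (k := k) (A := R)
    {q : PP R 1 × PP R 1 | q.1 ∈ P ∧ q.2 ∈ P ∧ Lt q.1 q.2}
    (by
      obtain ⟨φ, hφ, ψ, hψ, h⟩ := hwide.1
      exact ⟨(ψ, φ), hψ, hφ, h⟩)
    (by
      rintro ⟨ψ, φ⟩ ⟨hψ, hφ, h⟩
      obtain ⟨c, hc, d, hd, _, _, g1, g2, g3, g4, c', hc', _, _, d', hd', _, _,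
        ⟨k1, k2, _, _⟩, k3, k4, _, _⟩ := hwide.2 φ hφ ψ hψ h
      exact ⟨h.1, h.2, (c, c'), ⟨hc, hc', k2⟩, (d, d'), ⟨hd, hd', k4⟩, g1.1, g3.1, k1, k3,
        g2.1, g4.1⟩)
  exact ⟨H, i1, i2, fun A B _ _ _ _ i hi f =>
    Pool.Agent.Helper232.RZ.ac_pi hAC A B i hi.2 f, hnt, hsd⟩

end Pool.Agent.Results.MP_ca5fc5_al.FiniteDimensionalAlgebras
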